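import Pool.Agent.Helper46.CU.Stmts

set_option autoImplicit false

namespace Pool.Agent.Helper46.CU

open Finset

theorem spl_nine (a s : ℕ) (h : s ^ 2 ∣ a ^ 2 + a + 1) : ¬ 3 ∣ s := by
  intro h3
  have h9 : 9 ∣ a ^ 2 + a + 1 := by
    have : (3 : ℕ) ^ 2 ∣ s ^ 2 := pow_dvd_pow_of_dvd h3 2
    exact this.trans h
  have h1 : (a ^ 2 + a + 1) % 9 = 0 := Nat.mod_eq_zero_of_dvd h9
  have h2 : (a % 9 = 0 ∨ a % 9 = 1 ∨ a % 9 = 2 ∨ a % 9 = 3 ∨ a % 9 = 4 ∨ a % 9 = 5 ∨ a % 9 = 6 ∨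
    a % 9 = 7 ∨ a % 9 = 8) := by omega
  rcases h2 with h | h | h | h | h | h | h | h | h <;>
    simp [Nat.add_mod, Nat.pow_mod, h] at h1

theorem st_SPL : ST_SPL := by
  intro a y ha hy
  obtain ⟨u, r, hru, hu⟩ := Nat.sq_mul_squarefree (a - 1)
  obtain ⟨v, s, hsv, hv⟩ := Nat.sq_mul_squarefree (a ^ 2 + a + 1)
  have hr : r ≠ 0 := by
    rintro rfl
    simp at hru
    omega
  have hs : s ≠ 0 := by
    rintro rfl
    simp at hsv
  have hu0 : u ≠ 0 := hu.ne_zero
  have hv0 : v ≠ 0 := hv.ne_zero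
  obtain ⟨k, rfl⟩ : ∃ k, a = k + 1 := ⟨a - 1, by omega⟩
  have hk : k + 1 - 1 = k := by omega
  rw [hk] at hru
  have hfac : (k + 1) ^ 3 - 1 = k * ((k + 1) ^ 2 + (k + 1) + 1) := by
    have : (k + 1) ^ 3 = k * ((k + 1) ^ 2 + (k + 1) + 1) + 1 := by ring
    omega
  have hs3 : ¬ 3 ∣ s := spl_nine (k + 1) s ⟨v, hsv.symm⟩
  -- a common prime divisor is three
  have hcom : ∀ p : ℕ, p.Prime → p ∣ k → p ∣ (k + 1) ^ 2 + (k + 1) + 1 → p = 3 := by
    intro p hp h1 h2
    have h3 : (k + 1) ^ 2 + (k + 1) + 1 = k * (k + 3) + 3 := by ring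
    rw [h3] at h2
    have h4 : p ∣ 3 := (Nat.dvd_add_right (h1.mul_right _)).1 h2
    exact (Nat.prime_dvd_prime_iff_eq hp Nat.prime_three).1 h4
  have hcop : Nat.Coprime r s := by
    rw [Nat.coprime_iff_gcd_eq_one]
    by_contra hne
    obtain ⟨p, hp, hpd⟩ := Nat.exists_prime_and_dvd hne
    have h1 : p ∣ r := hpd.trans (Nat.gcd_dvd_left _ _)
    have h2 : p ∣ s := hpd.trans (Nat.gcd_dvd_right _ _)
    have h3 : p ∣ k := by
      rw [← hru]
      exact (dvd_pow h1 two_ne_zero).mul_right _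
    have h4 : p ∣ (k + 1) ^ 2 + (k + 1) + 1 := by
      rw [← hsv]
      exact (dvd_pow h2 two_ne_zero).mul_right _
    have h5 := hcom p hp h3 h4
    rw [h5] at h2
    exact hs3 h2
  refine ⟨r, s, u, v, Nat.one_le_iff_ne_zero.2 hr, Nat.one_le_iff_ne_zero.2 hs, ?_, hsv.symm,
    hcop, ?_⟩
  · rw [hk]
    exact hru.symm
  have hk0 : k ≠ 0 := by omega
  have hN : (k + 1) ^ 3 - 1 ≠ 0 := by
    rw [hfac]
    positivity
  have hy0 : y ≠ 0 := by
    rintro rfl
    simp only [ne_eq, OfNat.ofNat_ne_zero, not_false_eq_true, zero_pow, zero_dvd_iff] at hy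
    exact hN hy
  rw [← Nat.factorization_prime_le_iff_dvd hy0 (by positivity)]
  intro p hp
  have h1 : (y ^ 2).factorization p ≤ ((k + 1) ^ 3 - 1).factorization p :=
    (Nat.factorization_le_iff_dvd (pow_ne_zero 2 hy0) hN).2 hy p
  have h2 : (k + 1) ^ 3 - 1 = (r ^ 2 * u) * (s ^ 2 * v) := by
    rw [hfac, hru, hsv]
  rw [h2, Nat.factorization_mul (by positivity) (by positivity),
    Nat.factorization_mul (by positivity) hu0, Nat.factorization_mul (by positivity) hv0,
    Nat.factorization_pow, Nat.factorization_pow, Nat.factorization_pow] at h1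
  simp only [Finsupp.coe_add, Finsupp.coe_smul, Pi.add_apply, Pi.smul_apply, smul_eq_mul] at h1
  rw [Nat.factorization_mul (by positivity) hs, Nat.factorization_mul (by norm_num) hr]
  simp only [Finsupp.coe_add, Pi.add_apply]
  have h3 : u.factorization p ≤ 1 := hu.natFactorization_le_one p
  have h4 : v.factorization p ≤ 1 := hv.natFactorization_le_one p
  by_cases hp3 : p = 3
  · have h5 : (3 : ℕ).factorization p = 1 := by
      rw [hp3, Nat.prime_three.factorization_self]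
    omega
  · have h5 : u.factorization p = 0 ∨ v.factorization p = 0 := by
      by_contra hcon
      push Not at hcon
      have h6 : p ∣ u := Nat.dvd_of_factorization_pos hcon.1
      have h7 : p ∣ v := Nat.dvd_of_factorization_pos hcon.2
      exact hp3 (hcom p hp (by rw [← hru]; exact h6.mul_left _)
        (by rw [← hsv]; exact h7.mul_left _))
    omega

end Pool.Agent.Helper46.CU
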